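import Pool.Agent.H95.DR.Targets
import Pool.Agent.H89.DF.TargetsK

/-!
# Dihedral `L`-functions, real quadratic fields: the volume for the conductor `1`
-/

set_option autoImplicit false

open MeasureTheory Set Filter NumberField
open scoped Real nonZeroDivisors Matrix MatrixGroups

namespace Pool.Agent.H97.DF

open Pool.Agent.H31.CN Pool.Agent.H89.FM Pool.Agent.H61.FM Pool.Agent.H89.FC Pool.Agent.H95.FC
open Pool.Agent.H89.DF Pool.Agent.H95.DR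

private lemma cosh_bd {t S : ℝ} (h : Real.cosh t ≤ S) : |t| ≤ Real.log (2 * S) := by
  have h1 : Real.exp |t| / 2 ≤ Real.cosh t := by
    rw [← Real.cosh_abs, Real.cosh_eq]
    have := Real.exp_pos (-|t|)
    linarith
  have h2 : Real.exp |t| ≤ 2 * S := by linarith
  calc |t| = Real.log (Real.exp |t|) := (Real.log_exp _).symm
    _ ≤ Real.log (2 * S) := Real.log_le_log (Real.exp_pos _) h2

section

variable {K : Type} [Field K] [NumberField K] {D f : ℕ} {σ σ' : K →+* ℝ}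

private lemma val_ne {I : Ideal (𝓞 K)} {α β : 𝓞 K} {Q : QF} (hOB : OBr σ σ' I α β Q)
    {v : ℤ × ℤ} (hv : v ≠ 0) : val Q v ≠ 0 := by
  intro h
  have h1 := hOB.nrm v
  rw [h, Int.cast_zero, mul_zero] at h1
  have h2 : lv K α β v ≠ 0 := fun h0 => hv (hOB.inj v h0)
  have h3 : ((lv K α β v : 𝓞 K) : K) ≠ 0 := by
    intro h0
    exact h2 (RingOfIntegers.coe_eq_zero_iff.mp h0)
  rcases mul_eq_zero.mp h1 with h4 | h4
  · exact h3 ((map_eq_zero σ).mp h4)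
  · exact h3 ((map_eq_zero σ').mp h4)

private lemma exV (hREDr : T_REDr) (hPBG : T_PBG) (hPBT : T_PBT) (hD : 0 < D)
    {I : Ideal (𝓞 K)} {α β : 𝓞 K} {Q : QF} (hI : I ≠ ⊥) (hOB : OBr σ σ' I α β Q)
    (hds : dsc Q = -(D : ℤ)) (τ : ℝ) :
    ∃ v : ℤ × ℤ, v ≠ 0 ∧ |(val Q v : ℝ)| ≤ √(D : ℝ) ∧
      |τ + lg σ σ' (lv K α β v)| ≤ Real.log (2 * √(D : ℝ)) := by
  have hPB := (hPBT K σ σ').1 I α β Q hI hOB
  obtain ⟨_, _, hτ⟩ := hPBG K σ σ' _ α β Q hPB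
  obtain ⟨hy, _, hv⟩ := hτ τ
  set x := (zp σ σ' τ α β).re
  set y := (zp σ σ' τ α β).im
  obtain ⟨g, _, hg⟩ := hREDr x y hy
  have hgd0 : 0 ≤ Pool.Agent.H89.DF.gd g x y := by unfold Pool.Agent.H89.DF.gd; positivity
  have hgd : 0 < Pool.Agent.H89.DF.gd g x y := by
    rcases hgd0.lt_or_eq with h | h
    · exact h
    · exfalso
      unfold gy at hg
      rw [← h, div_zero] at hg
      linarith
  have hgd2 : Pool.Agent.H89.DF.gd g x y ≤ 2 * y := by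
    unfold gy at hg
    rw [le_div_iff₀ hgd] at hg
    linarith
  have hv0 : ((g 0 0, g 1 0) : ℤ × ℤ) ≠ 0 := by
    intro h
    have h1 : g 0 0 = 0 := congrArg Prod.fst h
    have h2 : g 1 0 = 0 := congrArg Prod.snd h
    have : Pool.Agent.H89.DF.gd g x y = 0 := by
      unfold Pool.Agent.H89.DF.gd
      rw [h1, h2]
      simp
    linarith
  have hlv : lv K α β (g 0 0, g 1 0) ≠ 0 := fun h0 => hv0 (hOB.inj _ h0)
  obtain ⟨_, _, hq⟩ := hv _ hlv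
  have hq1 : qz x y (g 0 0, g 1 0) ≤ 1 := by
    have : qz x y (g 0 0, g 1 0) = Pool.Agent.H89.DF.gd g x y / (2 * y) := by
      unfold qz Pool.Agent.H89.DF.gd
      rfl
    rw [this, div_le_one (by positivity)]
    exact hgd2
  have hds' : (-(dsc Q : ℝ)) = (D : ℝ) := by
    rw [hds]
    push_cast
    ring
  rw [hq, hds'] at hq1
  have hsD : 0 < √(D : ℝ) := Real.sqrt_pos.mpr (by exact_mod_cast hD)
  rw [div_le_one hsD] at hq1
  have hval : (1 : ℝ) ≤ |(val Q (g 0 0, g 1 0) : ℝ)| := by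
    have h1 := Int.one_le_abs (val_ne hOB hv0)
    exact_mod_cast h1
  have hcosh : 1 ≤ Real.cosh (τ + lg σ σ' (lv K α β (g 0 0, g 1 0))) := Real.one_le_cosh _
  refine ⟨(g 0 0, g 1 0), hv0, ?_, ?_⟩
  · nlinarith [abs_nonneg (val Q (g 0 0, g 1 0) : ℝ)]
  · apply cosh_bd
    nlinarith [abs_nonneg (val Q (g 0 0, g 1 0) : ℝ)]

open Classical in
/-- the ideals of a class with norm at most `N` -/
private noncomputable def FC (K : Type) [Field K] [NumberField K] (N : ℕ)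
    (c : ClassGroup (𝓞 K)) : Finset (Ideal (𝓞 K))⁰ :=
  ((Finset.Icc 1 N).biUnion (Nn K)).filter fun J => (ClassGroup.mk0 J)⁻¹ = c

private lemma nm_pos' (J : (Ideal (𝓞 K))⁰) : 1 ≤ nm J := by
  have h : Ideal.absNorm (J : Ideal (𝓞 K)) ≠ 0 := Ideal.absNorm_ne_zero_of_nonZeroDivisors J
  unfold nm
  omega

open Classical in
private lemma sumC (N : ℕ) :
    ∑ c : ClassGroup (𝓞 K), ((FC K N c).card : ℝ) ≤
      ∑ n ∈ Finset.Icc 1 N, ((Nn K n).card : ℝ) := by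
  have h1 : ((Finset.Icc 1 N).biUnion (Nn K)).card =
      ∑ c : ClassGroup (𝓞 K), (FC K N c).card := by
    unfold FC
    exact Finset.card_eq_sum_card_fiberwise (fun _ _ => Finset.mem_coe.mpr (Finset.mem_univ _))
  have h2 : ((Finset.Icc 1 N).biUnion (Nn K)).card ≤ ∑ n ∈ Finset.Icc 1 N, (Nn K n).card :=
    Finset.card_biUnion_le
  rw [h1] at h2
  exact_mod_cast h2

private lemma oneClass (hUNR : T_UNR) (hUAC : T_UAC) (hREDr : T_REDr) (hPBG : T_PBG)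
    (hPBT : T_PBT) (hTYR : T_TYR) (hWND : T_WND) (hUWN : T_UWN) (hRQ : RQ K D σ σ') (hf : 1 ≤ f)
    (R : DD K D f σ σ') (c : ClassGroup (𝓞 K)) :
    R.P ≤ 2 * Real.log (2 * √(D : ℝ)) * (R.n * (FC K ⌊√(D : ℝ)⌋₊ c).card) := by
  classical
  have hD := hRQ.pos
  have hOB := R.ob c
  have hVB := R.vb c
  have hUN := R.un
  have hI : (R.I c : Ideal (𝓞 K)) ≠ ⊥ := nonZeroDivisors.coe_ne_zero (R.I c)
  obtain ⟨hP, hnq, _⟩ := hUWN K D f σ σ' hRQ R.η hUN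
  obtain ⟨E, hE1, hE0, _, hEv, _⟩ := hUAC K σ σ' f (R.I c : Ideal (𝓞 K)) (R.α c) (R.β c) (R.Q c)
    R.η hf hOB hUN
  set B : ℝ := Real.log (2 * √(D : ℝ)) with hB
  have hsD : 1 ≤ √(D : ℝ) := by
    rw [Real.one_le_sqrt]
    exact_mod_cast hD
  have hB0 : 0 ≤ B := Real.log_nonneg (by linarith)
  let Ω := {v : ℤ × ℤ // v ≠ 0}
  let E' : Ω ≃ Ω := E.subtypeEquiv fun v => not_congr (hE0 v).symm
  let l : Ω → ℝ := fun v => lg σ σ' (lv K (R.α c) (R.β c) v.1)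
  let g : Ω → ℝ → ℝ := fun v τ =>
    if |(val (R.Q c) v.1 : ℝ)| ≤ √(D : ℝ) then (Icc (-B) B).indicator 1 τ else 0
  have hlv0 : ∀ v : Ω, lv K (R.α c) (R.β c) v.1 ≠ 0 := fun v h0 => v.2 (hOB.inj _ h0)
  have hη0 : (R.η : 𝓞 K) ≠ 0 := Units.ne_zero R.η
  have hl : ∀ v, l (E' v) = l v + R.P := by
    intro v
    change lg σ σ' (lv K (R.α c) (R.β c) (E v.1)) = lg σ σ' (lv K (R.α c) (R.β c) v.1) +
      lg σ σ' (R.η : 𝓞 K)
    rw [hE1, ((hTYR K σ σ' 0 0).1 _ _ hη0 (hlv0 v)).1]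
    ring
  have hg : ∀ v, g (E' v) = g v := by
    intro v
    funext τ
    change (if |(val (R.Q c) (E v.1) : ℝ)| ≤ √(D : ℝ) then (Icc (-B) B).indicator 1 τ else 0) =
      if |(val (R.Q c) v.1 : ℝ)| ≤ √(D : ℝ) then (Icc (-B) B).indicator 1 τ else 0
    rw [hEv]
  have hind : Integrable ((Icc (-B) B).indicator (1 : ℝ → ℝ)) := by
    rw [integrable_indicator_iff measurableSet_Icc]
    exact integrableOn_const (by simp)
  have hgi : ∀ v, Integrable (g v) := by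
    intro v
    by_cases h : |(val (R.Q c) v.1 : ℝ)| ≤ √(D : ℝ)
    · simp only [g, h, if_true]
      exact hind
    · simp only [g, h, if_false]
      exact integrable_zero _ _ _
  have hg0 : ∀ v τ, 0 ≤ g v τ := by
    intro v τ
    simp only [g]
    split_ifs
    · exact indicator_nonneg (fun _ _ => zero_le_one) _
    · exact le_refl _
  have hint : ∀ v, ∫ τ, g v τ = if |(val (R.Q c) v.1 : ℝ)| ≤ √(D : ℝ) then 2 * B else 0 := by
    intro v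
    by_cases h : |(val (R.Q c) v.1 : ℝ)| ≤ √(D : ℝ)
    · simp only [g, h, if_true]
      rw [integral_indicator measurableSet_Icc]
      simp only [Pi.one_apply, integral_const, MeasurableSet.univ, measureReal_restrict_apply,
        univ_inter, smul_eq_mul, mul_one]
      rw [Measure.real, Real.volume_Icc, ENNReal.toReal_ofReal (by linarith)]
      ring
    · simp only [g, h, if_false, integral_zero]
  -- the windows
  have hwin : ∀ J ∈ FC K ⌊√(D : ℝ)⌋₊ c,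
      {v' : ℤ × ℤ | Wd σ σ' (R.α c) (R.β c) R.η 0 v' ∧ R.b c v' = J}.Finite ∧
      {v' : ℤ × ℤ | Wd σ σ' (R.α c) (R.β c) R.η 0 v' ∧ R.b c v' = J}.ncard = R.n := by
    intro J hJ
    unfold FC at hJ
    rw [Finset.mem_filter] at hJ
    have h1 : ClassGroup.mk0 J = (ClassGroup.mk0 (R.I c))⁻¹ := by
      rw [R.cl c, ← hJ.2, inv_inv]
    obtain ⟨v, hv, hbv⟩ := hVB.sur J h1
    have h2 := hWND K D f σ σ' hRQ R.η hUN (R.I c) (R.α c) (R.β c) (R.Q c) (R.b c) hOB hVB v 0 hv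
    rw [hbv] at h2
    exact h2
  let WF : Finset (ℤ × ℤ) := (FC K ⌊√(D : ℝ)⌋₊ c).attach.biUnion
    fun J => (hwin J.1 J.2).1.toFinset
  have hWF : (WF.card : ℝ) ≤ R.n * (FC K ⌊√(D : ℝ)⌋₊ c).card := by
    have h1 : WF.card ≤ ∑ J ∈ (FC K ⌊√(D : ℝ)⌋₊ c).attach, (hwin J.1 J.2).1.toFinset.card :=
      Finset.card_biUnion_le
    have h2 : ∀ J ∈ (FC K ⌊√(D : ℝ)⌋₊ c).attach, (hwin J.1 J.2).1.toFinset.card = R.n := by
      intro J _
      rw [← Set.ncard_eq_toFinset_card _ (hwin J.1 J.2).1]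
      exact (hwin J.1 J.2).2
    rw [Finset.sum_congr rfl h2, Finset.sum_const, Finset.card_attach, smul_eq_mul] at h1
    have h3 : (WF.card : ℝ) ≤ (((FC K ⌊√(D : ℝ)⌋₊ c).card * R.n : ℕ) : ℝ) := by exact_mod_cast h1
    push_cast at h3
    linarith
  have hmem : ∀ v : Ω, 0 ≤ l v → l v < R.P → |(val (R.Q c) v.1 : ℝ)| ≤ √(D : ℝ) → v.1 ∈ WF := by
    intro v h1 h2 h3
    have hnm : nm (R.b c v.1) ≤ ⌊√(D : ℝ)⌋₊ := by
      apply Nat.le_floor
      have h4 := hVB.nrm v.1 v.2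
      have h5 : ((nm (R.b c v.1) : ℤ) : ℝ) = ((|val (R.Q c) v.1| : ℤ) : ℝ) := by rw [h4]
      push_cast at h5
      rw [h5]
      exact h3
    have hJ : R.b c v.1 ∈ FC K ⌊√(D : ℝ)⌋₊ c := by
      unfold FC
      rw [Finset.mem_filter, Finset.mem_biUnion]
      refine ⟨⟨nm (R.b c v.1), Finset.mem_Icc.mpr ⟨nm_pos' _, hnm⟩, mem_Nn.mpr rfl⟩, ?_⟩
      rw [hVB.cls v.1 v.2, inv_inv, R.cl c]
    rw [Finset.mem_biUnion]
    refine ⟨⟨R.b c v.1, hJ⟩, Finset.mem_attach _ _, ?_⟩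
    rw [Set.Finite.mem_toFinset]
    refine ⟨⟨v.2, h1, ?_⟩, rfl⟩
    rw [zero_add]
    exact h2
  -- partial sums
  have hpart : ∀ s : Finset Ω, ∑ v ∈ s, (if 0 ≤ l v ∧ l v < R.P then ∫ τ : ℝ, g v τ else 0) ≤
      2 * B * (R.n * (FC K ⌊√(D : ℝ)⌋₊ c).card) := by
    intro s
    have h1 : ∀ v ∈ s, (if 0 ≤ l v ∧ l v < R.P then ∫ τ : ℝ, g v τ else 0) =
        if (0 ≤ l v ∧ l v < R.P) ∧ |(val (R.Q c) v.1 : ℝ)| ≤ √(D : ℝ) then 2 * B else 0 := by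
      intro v _
      rw [hint]
      by_cases h2 : 0 ≤ l v ∧ l v < R.P
      · by_cases h3 : |(val (R.Q c) v.1 : ℝ)| ≤ √(D : ℝ)
        · rw [if_pos h2, if_pos h3, if_pos ⟨h2, h3⟩]
        · rw [if_pos h2, if_neg h3, if_neg (fun h => h3 h.2)]
      · rw [if_neg h2, if_neg (fun h => h2 h.1)]
    rw [Finset.sum_congr rfl h1, ← Finset.sum_filter, Finset.sum_const, nsmul_eq_mul]
    have h2 : (s.filter fun v : Ω => (0 ≤ l v ∧ l v < R.P) ∧
        |(val (R.Q c) v.1 : ℝ)| ≤ √(D : ℝ)).card ≤ WF.card := by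
      apply Finset.card_le_card_of_injOn Subtype.val
      · intro v hv
        rw [Finset.mem_coe, Finset.mem_filter] at hv
        exact Finset.mem_coe.mpr (hmem v hv.2.1.1 hv.2.1.2 hv.2.2)
      · exact Subtype.val_injective.injOn
    have h3 : ((s.filter fun v : Ω => (0 ≤ l v ∧ l v < R.P) ∧
        |(val (R.Q c) v.1 : ℝ)| ≤ √(D : ℝ)).card : ℝ) ≤ WF.card := by exact_mod_cast h2
    nlinarith
  have hterm0 : ∀ v : Ω, 0 ≤ (if 0 ≤ l v ∧ l v < R.P then ∫ τ : ℝ, g v τ else 0) := by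
    intro v
    split_ifs
    · exact integral_nonneg (hg0 v)
    · exact le_refl _
  have hsum : Summable fun v : Ω => if 0 ≤ l v ∧ l v < R.P then ∫ τ : ℝ, g v τ else 0 :=
    summable_of_sum_le hterm0 hpart
  obtain ⟨hae, hii, hhs⟩ := hUNR Ω E' l R.P g hP hl hg hgi hg0 hsum
  have h1 : ∫ τ in (0 : ℝ)..R.P, ∑' x, g x (τ + l x) ≤
      2 * B * (R.n * (FC K ⌊√(D : ℝ)⌋₊ c).card) := hasSum_le_of_sum_le hhs hpart
  have h2 : ∫ _ in (0 : ℝ)..R.P, (1 : ℝ) ≤ ∫ τ in (0 : ℝ)..R.P, ∑' x, g x (τ + l x) := by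
    apply intervalIntegral.integral_mono_ae hP.le intervalIntegrable_const hii
    filter_upwards [hae] with τ hτ
    obtain ⟨v, hv0, hv1, hv2⟩ := exV hREDr hPBG hPBT hD hI hOB (R.ds c) τ
    have h3 : g ⟨v, hv0⟩ (τ + l ⟨v, hv0⟩) = 1 := by
      simp only [g, hv1, if_true]
      rw [indicator_of_mem]
      · rfl
      · exact abs_le.mp hv2
    calc (1 : ℝ) = g ⟨v, hv0⟩ (τ + l ⟨v, hv0⟩) := h3.symm
      _ ≤ ∑' x, g x (τ + l x) := hτ.le_tsum ⟨v, hv0⟩ fun x _ => hg0 x _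
  rw [intervalIntegral.integral_const, sub_zero, smul_eq_mul, mul_one] at h2
  exact h2.trans h1

end

theorem pf_VOC (hUNR : T_UNR) (hUAC : T_UAC) (hREDr : T_REDr) (hPBG : T_PBG) (hPBT : T_PBT)
    (hTYR : T_TYR) (hWND : T_WND) (hUWN : T_UWN) (hNID : T_NID) : T_VOC := by
  intro ε hε
  obtain ⟨C₁, hC₁, hN⟩ := hNID ε hε
  refine ⟨2 * (2 ^ ε / ε) * C₁, by positivity, ?_⟩
  intro K _ _ D f σ σ' hRQ hf R
  have hD : (1 : ℝ) ≤ (D : ℝ) := by exact_mod_cast hRQ.pos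
  have hD0 : (0 : ℝ) < D := by linarith
  have hsD : 1 ≤ √(D : ℝ) := by rwa [Real.one_le_sqrt]
  have hsD0 : 0 < √(D : ℝ) := by linarith
  set N : ℕ := ⌊√(D : ℝ)⌋₊ with hNdef
  have hNle : (N : ℝ) ≤ √(D : ℝ) := Nat.floor_le hsD0.le
  have hB0 : 0 ≤ Real.log (2 * √(D : ℝ)) := Real.log_nonneg (by linarith)
  have h1 : ∀ c ∈ (Finset.univ : Finset (ClassGroup (𝓞 K))), R.P ≤
      2 * Real.log (2 * √(D : ℝ)) * (R.n * (FC K N c).card) := fun c _ =>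
    oneClass hUNR hUAC hREDr hPBG hPBT hTYR hWND hUWN hRQ hf R c
  have h2 := Finset.sum_le_sum h1
  rw [Finset.sum_const, Finset.card_univ, nsmul_eq_mul, ← Finset.mul_sum, ← Finset.mul_sum] at h2
  have h3 := sumC (K := K) N
  have h4 : ∑ n ∈ Finset.Icc 1 N, ((Nn K n).card : ℝ) ≤ N * (C₁ * (√(D : ℝ)) ^ ε) := by
    have h5 : ∀ n ∈ Finset.Icc 1 N, ((Nn K n).card : ℝ) ≤ C₁ * (√(D : ℝ)) ^ ε := by
      intro n hn
      rw [Finset.mem_Icc] at hn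
      refine (hN K hRQ.rk n hn.1).trans ?_
      apply mul_le_mul_of_nonneg_left _ hC₁.le
      apply Real.rpow_le_rpow (by positivity) _ hε.le
      have : (n : ℝ) ≤ N := by exact_mod_cast hn.2
      linarith
    have h6 := Finset.sum_le_sum h5
    rw [Finset.sum_const, nsmul_eq_mul, Nat.card_Icc, Nat.add_sub_cancel] at h6
    exact h6
  have h5 : Real.log (2 * √(D : ℝ)) ≤ 2 ^ ε / ε * (√(D : ℝ)) ^ ε := by
    have := Real.log_le_rpow_div (x := 2 * √(D : ℝ)) (by positivity) hε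
    rw [Real.mul_rpow (by norm_num) hsD0.le] at this
    calc Real.log (2 * √(D : ℝ)) ≤ 2 ^ ε * √(D : ℝ) ^ ε / ε := this
      _ = 2 ^ ε / ε * (√(D : ℝ)) ^ ε := by ring
  have hn0 : (0 : ℝ) ≤ R.n := Nat.cast_nonneg _
  have hpow : (√(D : ℝ)) ^ ε * (√(D : ℝ)) ^ ε * √(D : ℝ) = (D : ℝ) ^ (1 / 2 + ε) := by
    rw [← Real.rpow_add hsD0, Real.sqrt_eq_rpow, ← Real.rpow_mul hD0.le, ← Real.rpow_add hD0]
    congr 1
    ring
  have hS0 : (0 : ℝ) ≤ (√(D : ℝ)) ^ ε := by positivity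
  calc (Fintype.card (ClassGroup (𝓞 K)) : ℝ) * R.P
      ≤ 2 * Real.log (2 * √(D : ℝ)) * (R.n * ∑ c : ClassGroup (𝓞 K), ((FC K N c).card : ℝ)) := h2
    _ ≤ 2 * Real.log (2 * √(D : ℝ)) * (R.n * (√(D : ℝ) * (C₁ * (√(D : ℝ)) ^ ε))) := by
        apply mul_le_mul_of_nonneg_left _ (by positivity)
        apply mul_le_mul_of_nonneg_left _ hn0
        refine (h3.trans h4).trans ?_
        exact mul_le_mul_of_nonneg_right hNle (by positivity)
    _ ≤ 2 * (2 ^ ε / ε * (√(D : ℝ)) ^ ε) * (R.n * (√(D : ℝ) * (C₁ * (√(D : ℝ)) ^ ε))) := by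
        apply mul_le_mul_of_nonneg_right _ (by positivity)
        linarith
    _ = 2 * (2 ^ ε / ε) * C₁ * R.n * ((√(D : ℝ)) ^ ε * (√(D : ℝ)) ^ ε * √(D : ℝ)) := by ring
    _ = 2 * (2 ^ ε / ε) * C₁ * R.n * (D : ℝ) ^ (1 / 2 + ε) := by rw [hpow]

end Pool.Agent.H97.DF
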